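import Pool.Agent.Helper31.LQ.Goals
import Mathlib

/-!
# Project LQ (MP_6fb600_gt), packet MEAS: measurability
-/

set_option autoImplicit false

namespace Pool.Agent.Helper91.LQ

open MeasureTheory Set Pool.Agent.Helper31.LQ

variable {n d : ℕ}

theorem cont_lin (x : Fin n → ℝ) (c : Fin d) :
    Continuous fun Y : Fin n → Fin d → ℝ => lin Y x c := by
  unfold lin
  exact continuous_finsetSum _ fun l _ => continuous_const.mul
    ((continuous_apply c).comp (continuous_apply l))

theorem cont_mat (π : Equiv.Perm (Fin (n + 1))) :
    Continuous fun Y : Fin n → Fin d → ℝ => mat Y π :=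
  continuous_matrix fun a c => cont_lin (pr (emb d π (Pi.single a 1))) c

theorem meas_det (π : Equiv.Perm (Fin (n + 1))) :
    Measurable fun Y : Fin n → Fin d → ℝ => (mat Y π).det :=
  (cont_mat π).matrix_det.measurable

theorem meas_adj (π : Equiv.Perm (Fin (n + 1))) (a b : Fin d) :
    Measurable fun Y : Fin n → Fin d → ℝ => (mat Y π).adjugate a b :=
  ((cont_mat π).matrix_adjugate.matrix_elem a b).measurable

theorem meas_nu (π : Equiv.Perm (Fin (n + 1))) (c : Fin d) :
    Measurable fun Y : Fin n → Fin d → ℝ => nu Y π c := by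
  have h : (fun Y : Fin n → Fin d → ℝ => nu Y π c) =
      fun Y => ∑ b, ((mat Y π).det)⁻¹ * (mat Y π).adjugate c b := by
    funext Y
    unfold nu
    rw [Matrix.inv_def, Ring.inverse_eq_inv', Matrix.mulVec, dotProduct]
    exact Finset.sum_congr rfl fun b _ => by
      rw [mul_one, Matrix.smul_apply, smul_eq_mul]
  rw [h]
  exact Finset.measurable_fun_sum _ fun b _ => (meas_det π).inv.mul (meas_adj π c b)

theorem meas_yv (o : Fin (n + 1)) (c : Fin d) :
    Measurable fun Y : Fin n → Fin d → ℝ => yv Y o c :=
  (cont_lin (ver o) c).measurable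

theorem meas_kp (π : Equiv.Perm (Fin (n + 1))) (o : Fin (n + 1)) :
    Measurable fun Y : Fin n → Fin d → ℝ => kp Y π o := by
  unfold kp
  exact (measurable_const.sub (Finset.measurable_fun_sum _ fun c _ =>
    (meas_nu π c).mul (meas_yv o c))).div_const _

theorem meas_ne {f : (Fin n → Fin d → ℝ) → ℝ} (hf : Measurable f) :
    Measurable fun Y => f Y ≠ 0 :=
  measurableSet_setOf.1 (hf (measurableSet_singleton (0 : ℝ)).compl)

theorem meas_lt {f g : (Fin n → Fin d → ℝ) → ℝ} (hf : Measurable f) (hg : Measurable g) :
    Measurable fun Y => f Y < g Y :=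
  measurableSet_setOf.1 (measurableSet_lt hf hg)

theorem meas_le {f g : (Fin n → Fin d → ℝ) → ℝ} (hf : Measurable f) (hg : Measurable g) :
    Measurable fun Y => f Y ≤ g Y :=
  measurableSet_setOf.1 (measurableSet_le hf hg)

theorem meas_fac (π : Equiv.Perm (Fin (n + 1))) :
    Measurable fun Y : Fin n → Fin d → ℝ => IsFac Y π :=
  (meas_ne (meas_det π)).and (Measurable.forall fun o => Measurable.imp measurable_const
    (meas_lt measurable_const (meas_kp π o)))

theorem meas_gp : Measurable fun Y : Fin n → Fin d → ℝ => GP Y :=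
  Measurable.forall fun π => (meas_ne (meas_det π)).and (Measurable.forall fun o =>
    Measurable.imp measurable_const (meas_ne (meas_kp π o)))

theorem meas_good (R : ℝ) : Measurable fun Y : Fin n → Fin d → ℝ => Good R Y :=
  meas_gp.and ((Measurable.forall fun o => Measurable.forall fun c =>
    meas_le (meas_yv o c).abs measurable_const).and
    (Measurable.forall fun π => (meas_fac π).imp
      ((meas_le measurable_const (measurable_const.mul (meas_det π).abs)).and
        (Measurable.forall fun o => Measurable.imp measurable_const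
          (meas_le measurable_const (measurable_const.mul (meas_kp π o)))))))

theorem gMEAS : Pool.Agent.Helper31.LQ.MEAS := fun _ _ =>
  ⟨fun π => meas_det π, fun π o => meas_kp π o, fun π => measurableSet_setOf.2 (meas_fac π),
    measurableSet_setOf.2 meas_gp, fun R => measurableSet_setOf.2 (meas_good R)⟩

end Pool.Agent.Helper91.LQ
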